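import Pool.Agent.Helper2.EC_C.Goals
import Pool.Agent.Helper2.EC_C.Basic

/-!
# MP_ecc237_nt (S18871), PART C, packet K4
-/

set_option autoImplicit false

namespace ECC.PkK4

open EC237 ECC

theorem kernel (a b : ℤ) : ((a - b : ℤ) : ℝ) * psi (a - b) - ((a + b : ℤ) : ℝ) * psi (a + b) =
    (-2 * psi a) * ((b : ℝ) * e6 b) + (-2 * ((a : ℝ) * e6 a)) * psi b := by
  have ha : a % 6 = 0 ∨ a % 6 = 1 ∨ a % 6 = 2 ∨ a % 6 = 3 ∨ a % 6 = 4 ∨ a % 6 = 5 := by omega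
  have hb : b % 6 = 0 ∨ b % 6 = 1 ∨ b % 6 = 2 ∨ b % 6 = 3 ∨ b % 6 = 4 ∨ b % 6 = 5 := by omega
  rcases ha with ha | ha | ha | ha | ha | ha <;> rcases hb with hb | hb | hb | hb | hb | hb <;>
    (simp [psi, e6, Int.sub_emod, Int.add_emod, ha, hb] <;> ring)

theorem psi_neg (n : ℤ) : psi (-n) = -psi n := by
  have ha : n % 6 = 0 ∨ n % 6 = 1 ∨ n % 6 = 2 ∨ n % 6 = 3 ∨ n % 6 = 4 ∨ n % 6 = 5 := by omega
  rcases ha with ha | ha | ha | ha | ha | ha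
  · have h : (-n) % 6 = 0 := by omega
    simp [psi, ha, h]
  · have h : (-n) % 6 = 5 := by omega
    simp [psi, ha, h]
  · have h : (-n) % 6 = 4 := by omega
    simp [psi, ha, h]
  · have h : (-n) % 6 = 3 := by omega
    simp [psi, ha, h]
  · have h : (-n) % 6 = 2 := by omega
    simp [psi, ha, h]
  · have h : (-n) % 6 = 1 := by omega
    simp [psi, ha, h]

theorem sum_psi (M : ℕ) (hM : 1 ≤ M) : ∑ j ∈ Finset.Ico 1 M, ((j:ℤ):ℝ) * psi (j:ℤ) =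
    psi (M:ℤ) - (M:ℝ) * e6 (M:ℤ) - 1 / 2 * ((M:ℝ) * psi (M:ℤ)) := by
  induction M, hM using Nat.le_induction with
  | base => simp [psi, e6]; norm_num
  | succ M hM ih =>
    rw [Finset.sum_Ico_succ_top hM, ih]
    have ha : (M:ℤ) % 6 = 0 ∨ (M:ℤ) % 6 = 1 ∨ (M:ℤ) % 6 = 2 ∨ (M:ℤ) % 6 = 3 ∨ (M:ℤ) % 6 = 4 ∨
      (M:ℤ) % 6 = 5 := by omega
    rcases ha with ha | ha | ha | ha | ha | ha <;>
      (push_cast; simp [psi, e6, Int.add_emod, ha] <;> ring)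

theorem e6_eq (M : ℕ) : (M:ℝ) * e6 (M:ℤ) = 1 / 2 * ((((M:ℝ) - 2 * (if 2 ∣ M then (M:ℝ) else 0))
    - 3 * (if 3 ∣ M then (M:ℝ) else 0)) + 6 * (if 6 ∣ M then (M:ℝ) else 0)) := by
  have ha : M % 6 = 0 ∨ M % 6 = 1 ∨ M % 6 = 2 ∨ M % 6 = 3 ∨ M % 6 = 4 ∨ M % 6 = 5 := by omega
  rcases ha with ha | ha | ha | ha | ha | ha
  · have h : (M:ℤ) % 6 = 0 := by omega
    rw [if_pos (by omega), if_pos (by omega), if_pos (by omega)]
    simp [e6, h]; ring
  · have h : (M:ℤ) % 6 = 1 := by omega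
    rw [if_neg (by omega), if_neg (by omega), if_neg (by omega)]
    simp [e6, h]; ring
  · have h : (M:ℤ) % 6 = 2 := by omega
    rw [if_pos (by omega), if_neg (by omega), if_neg (by omega)]
    simp [e6, h]; ring
  · have h : (M:ℤ) % 6 = 3 := by omega
    rw [if_neg (by omega), if_pos (by omega), if_neg (by omega)]
    simp [e6, h]; ring
  · have h : (M:ℤ) % 6 = 4 := by omega
    rw [if_pos (by omega), if_neg (by omega), if_neg (by omega)]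
    simp [e6, h]; ring
  · have h : (M:ℤ) % 6 = 5 := by omega
    rw [if_neg (by omega), if_neg (by omega), if_neg (by omega)]
    simp [e6, h]; ring

theorem psi_eq (M : ℕ) : psi (M:ℤ) = chi (M:ℤ) - 2 * (if 2 ∣ M then chi (M:ℤ) else 0) := by
  have ha : M % 6 = 0 ∨ M % 6 = 1 ∨ M % 6 = 2 ∨ M % 6 = 3 ∨ M % 6 = 4 ∨ M % 6 = 5 := by omega
  rcases ha with ha | ha | ha | ha | ha | ha
  · have h : (M:ℤ) % 6 = 0 := by omega
    have h3 : (M:ℤ) % 3 = 0 := by omega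
    rw [if_pos (by omega)]
    simp [psi, chi, h, h3]
  · have h : (M:ℤ) % 6 = 1 := by omega
    have h3 : (M:ℤ) % 3 = 1 := by omega
    rw [if_neg (by omega)]
    simp [psi, chi, h, h3]
  · have h : (M:ℤ) % 6 = 2 := by omega
    have h3 : (M:ℤ) % 3 = 2 := by omega
    rw [if_pos (by omega)]
    simp [psi, chi, h, h3]; norm_num
  · have h : (M:ℤ) % 6 = 3 := by omega
    have h3 : (M:ℤ) % 3 = 0 := by omega
    rw [if_neg (by omega)]
    simp [psi, chi, h, h3]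
  · have h : (M:ℤ) % 6 = 4 := by omega
    have h3 : (M:ℤ) % 3 = 1 := by omega
    rw [if_pos (by omega)]
    simp [psi, chi, h, h3]; norm_num
  · have h : (M:ℤ) % 6 = 5 := by omega
    have h3 : (M:ℤ) % 3 = 2 := by omega
    rw [if_neg (by omega)]
    simp [psi, chi, h, h3]

theorem chi_two (M : ℕ) : chi ((2 * M : ℕ) : ℤ) = -chi (M:ℤ) := by
  have ha : (M:ℤ) % 3 = 0 ∨ (M:ℤ) % 3 = 1 ∨ (M:ℤ) % 3 = 2 := by omega
  rcases ha with ha | ha | ha
  · have h : ((2 * M : ℕ):ℤ) % 3 = 0 := by push_cast; omega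
    unfold chi; simp only [h, ha]; simp
  · have h : ((2 * M : ℕ):ℤ) % 3 = 2 := by push_cast; omega
    unfold chi; simp only [h, ha]; simp
  · have h : ((2 * M : ℕ):ℤ) % 3 = 1 := by push_cast; omega
    unfold chi; simp only [h, ha]; simp

/-- general sieve: `LS (w·psi) = LS (w·chi) + 2 LS (w(2M)·chi)(q²)` -/
theorem LS_psi_w {w : ℕ → ℕ → ℝ} (hw : PG w) {q : ℝ} (hq : |q| < 1) :
    LS (fun M ν => w M ν * psi (M:ℤ)) q =
      LS (fun M ν => w M ν * chi (M:ℤ)) q + 2 * LS (fun M ν => w (2 * M) ν * chi (M:ℤ)) (q ^ 2) := by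
  have h1 : PG (fun M ν => w M ν * chi (M:ℤ)) := hw.mul PG.chi
  have h2 : PG (fun M ν => if 2 ∣ M then w M ν * chi (M:ℤ) else 0) := h1.ite _
  have h3 : PG (fun M ν => 2 * (if 2 ∣ M then w M ν * chi (M:ℤ) else 0)) := (PG.const 2).mul h2
  have e1 : LS (fun M ν => w M ν * psi (M:ℤ)) q =
      LS (fun M ν => w M ν * chi (M:ℤ) - 2 * (if 2 ∣ M then w M ν * chi (M:ℤ) else 0)) q := by
    refine LS_congr (fun M ν _ _ => ?_) q
    rw [psi_eq]
    split_ifs <;> ring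
  rw [e1, LS_sub h1 h3 hq, LS_mul_left, LS_sieveM (fun M ν => w M ν * chi (M:ℤ)) (by norm_num)]
  have e2 : LS (fun M ν => w (2 * M) ν * chi ((2 * M : ℕ) : ℤ)) (q ^ 2) =
      -LS (fun M ν => w (2 * M) ν * chi (M:ℤ)) (q ^ 2) := by
    rw [← LS_neg]
    refine LS_congr (fun M ν _ _ => ?_) _
    rw [chi_two]; ring
  rw [e2]; ring

theorem LS_M (q : ℝ) : LS (fun M _ => (M:ℝ)) q = GS q := by
  unfold GS
  exact LS_swap (fun _ ν => (ν:ℝ)) q

theorem LS_sM {d : ℕ} (hd : 1 ≤ d) (q : ℝ) :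
    LS (fun M _ => if d ∣ M then (M:ℝ) else 0) q = d * GS (q ^ d) := by
  rw [LS_sieveM (fun M _ => (M:ℝ)) hd, ← LS_M, ← LS_mul_left]
  refine LS_congr (fun M ν _ _ => ?_) _
  push_cast; ring

theorem LS_e6 {q : ℝ} (hq : |q| < 1) : LS (fun M _ => (M:ℝ) * e6 (M:ℤ)) q =
    1 / 2 * (GS q - 4 * GS (q ^ 2) - 9 * GS (q ^ 3) + 36 * GS (q ^ 6)) := by
  have p1 : PG (fun M _ => (M:ℝ)) := PG.M
  have p2 : PG (fun M _ => 2 * (if 2 ∣ M then (M:ℝ) else 0)) := (PG.const 2).mul (PG.M.ite _)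
  have p3 : PG (fun M _ => 3 * (if 3 ∣ M then (M:ℝ) else 0)) := (PG.const 3).mul (PG.M.ite _)
  have p6 : PG (fun M _ => 6 * (if 6 ∣ M then (M:ℝ) else 0)) := (PG.const 6).mul (PG.M.ite _)
  have e1 : LS (fun M _ => (M:ℝ) * e6 (M:ℤ)) q =
      LS (fun M _ => 1 / 2 * ((((M:ℝ) - 2 * (if 2 ∣ M then (M:ℝ) else 0))
    - 3 * (if 3 ∣ M then (M:ℝ) else 0)) + 6 * (if 6 ∣ M then (M:ℝ) else 0))) q :=
    LS_congr (fun M ν _ _ => e6_eq M) q
  rw [e1, LS_mul_left, LS_add ((p1.sub p2).sub p3) p6 hq, LS_sub (p1.sub p2) p3 hq,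
    LS_sub p1 p2 hq, LS_mul_left, LS_mul_left, LS_mul_left, LS_M, LS_sM (by norm_num),
    LS_sM (by norm_num), LS_sM (by norm_num)]
  push_cast; ring

theorem k4 (ram : G_RAM) : G_K4 := by
  intro q hq
  have pψ : PG (fun M _ => psi (M:ℤ)) := PG.psi
  have pMe : PG (fun M _ => (M:ℝ) * e6 (M:ℤ)) := PG.M.mul PG.e6
  have pMψ : PG (fun M _ => (M:ℝ) * psi (M:ℤ)) := PG.M.mul PG.psi
  have pM2ψ : PG (fun M _ => (M:ℝ) ^ 2 * psi (M:ℤ)) := (PG.M.pow 2).mul PG.psi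
  have hR := ram (fun n => (n:ℝ) * psi n) 2
    (fun i n => if i = 0 then -2 * psi n else -2 * ((n:ℝ) * e6 n))
    (fun i n => if i = 0 then (n:ℝ) * e6 n else psi n) 2 1
    (fun n => by rw [psi_neg]; push_cast; ring)
    (fun n => by
      rw [abs_mul]
      have h1 := abs_psi_le n
      have h2 := abs_nonneg (n:ℝ)
      nlinarith [abs_nonneg (psi n)])
    (fun i n => by
      have h1 := abs_psi_le n
      have h2 := abs_nonneg (n:ℝ)
      have h3 := abs_e6_le n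
      split_ifs
      · rw [abs_mul]; norm_num; nlinarith [abs_nonneg (psi n)]
      · rw [abs_mul, abs_mul]; norm_num; nlinarith [abs_nonneg (e6 n)])
    (fun i n => by
      have h1 := abs_psi_le n
      have h2 := abs_nonneg (n:ℝ)
      have h3 := abs_e6_le n
      split_ifs
      · rw [abs_mul]; nlinarith [abs_nonneg (e6 n)]
      · nlinarith [abs_nonneg (psi n)])
    (fun a b _ _ => by
      rw [Finset.sum_range_succ, Finset.sum_range_succ, Finset.sum_range_zero]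
      simp only [if_true, one_ne_zero, if_false]
      rw [zero_add]
      exact kernel a b) q hq
  rw [Finset.sum_range_succ, Finset.sum_range_succ, Finset.sum_range_zero] at hR
  simp only [if_true, one_ne_zero, if_false, Int.cast_zero, zero_mul, zero_add,
    Int.cast_natCast] at hR
  rw [LS_mul_left, LS_mul_left] at hR
  have s1 : LS (fun M ν => (ν:ℝ) * ((M:ℝ) * psi (M:ℤ))) q =
      LS (fun M ν => (M:ℝ) * (ν:ℝ) * psi (M:ℤ)) q :=
    LS_congr (fun M ν _ _ => by ring) q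
  have s2 : LS (fun M _ => ((M:ℝ) + 1) * ((M:ℝ) * psi (M:ℤ))) q =
      LS (fun M _ => (M:ℝ) ^ 2 * psi (M:ℤ)) q + LS (fun M _ => (M:ℝ) * psi (M:ℤ)) q := by
    rw [← LS_add pM2ψ pMψ hq]
    exact LS_congr (fun M ν _ _ => by ring) q
  have s3 : LS (fun M _ => ∑ j ∈ Finset.Ico 1 M, (j:ℝ) * psi (j:ℤ)) q =
      LS (fun M _ => psi (M:ℤ)) q - LS (fun M _ => (M:ℝ) * e6 (M:ℤ)) q
        - 1 / 2 * LS (fun M _ => (M:ℝ) * psi (M:ℤ)) q := by
    rw [← LS_mul_left, ← LS_sub pψ pMe hq, ← LS_sub (pψ.sub pMe) ((PG.const _).mul pMψ) hq]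
    refine LS_congr (fun M ν hM _ => ?_) q
    have := sum_psi M hM
    simpa using this
  rw [s1, s2, s3] at hR
  have t1 : LS (fun M _ => psi (M:ℤ)) q = (aS q + 2 * aS (q ^ 2) - 3) / 6 := by
    have h := LS_psi_w (PG.const 1) hq
    simp only [one_mul] at h
    rw [h]; unfold aS; ring
  have t2 : LS (fun M ν => (M:ℝ) * (ν:ℝ) * psi (M:ℤ)) q = (aT q + 4 * aT (q ^ 2)) / 6 := by
    have h := LS_psi_w (PG.M.mul PG.N) hq
    rw [h]
    have h2 : LS (fun M ν => (((2 * M : ℕ) : ℝ)) * (ν:ℝ) * chi (M:ℤ)) (q ^ 2) =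
        2 * LS (fun M ν => (M:ℝ) * (ν:ℝ) * chi (M:ℤ)) (q ^ 2) := by
      rw [← LS_mul_left]
      exact LS_congr (fun M ν _ _ => by push_cast; ring) _
    rw [h2]; unfold aT; ring
  have t3 : LS (fun M _ => (M:ℝ) ^ 2 * psi (M:ℤ)) q = (1 - bS q) / 9 + 8 * (1 - bS (q ^ 2)) / 9 := by
    have h := LS_psi_w (PG.M.pow 2) hq
    rw [h]
    have h1 : LS (fun M ν => (M:ℝ) ^ 2 * chi (M:ℤ)) q = LS (fun M _ => chi (M:ℤ) * (M:ℝ) ^ 2) q :=
      LS_congr (fun M ν _ _ => by ring) _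
    have h2 : LS (fun M ν => (((2 * M : ℕ) : ℝ)) ^ 2 * chi (M:ℤ)) (q ^ 2) =
        4 * LS (fun M _ => chi (M:ℤ) * (M:ℝ) ^ 2) (q ^ 2) := by
      rw [← LS_mul_left]
      exact LS_congr (fun M ν _ _ => by push_cast; ring) _
    rw [h1, h2]; unfold bS; ring
  have t4 := LS_e6 hq
  rw [t1, t2, t3, t4] at hR
  linear_combination (1:ℝ) * (-hR)

end ECC.PkK4
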